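import Pool.Agent.helper32.EXC.Spec11

/-!
# Row en11:TPR (project EXC, MP_561ff4_al): the type of a pair of root vectors
-/

set_option autoImplicit false

open Finset

namespace Pool.Agent.EXC

theorem T11TPR_ip (hRFL : RFL_stmt) {n : ℕ} (C : Matrix (Fin n) (Fin n) ℤ) [IsC C] (p : (Fin n → ℤ) × (Fin n → ℤ)) :
    ∀ q : (Fin n → ℤ) × (Fin n → ℤ), WP C p q → ip C q.1 q.2 = ip C p.1 p.2 := by
  intro q hq
  induction hq with
  | refl => rfl
  | @tail p' q _ hstep ih =>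
    obtain ⟨i, rfl⟩ := hstep
    rw [← ih]
    exact (hRFL n C i p'.1 p'.2).1

theorem T11TPR_ne {F : Type} [Field F] (s : ℤ) (hs : s = 1 ∨ s = -1) : (s : F) ≠ 0 := by
  rcases hs with rfl | rfl <;> simp

theorem T11TPR (hNBR : NBR_stmt) (hWPG : WPG_stmt) (hRFL : RFL_stmt) : T11TPR_stmt := by
  intro n C _ F _ j0 θ δ hE α β hα hβ
  obtain ⟨hb, hn⟩ := hNBR n C j0 θ δ hE
  obtain ⟨β', hβ', hw⟩ := hn α θ β hα hE.th2 hβ
  obtain ⟨g, hg, s, s', hs, hs', e1, e2⟩ := hWPG n C F hb α β θ β' hα hβ hw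
  have hip : ip C θ β' = ip C α β := T11TPR_ip hRFL C (α, β) (θ, β') hw
  exact ⟨g, hg, β', hβ', hip, s, s', T11TPR_ne s hs, T11TPR_ne s' hs', e1, e2⟩

end Pool.Agent.EXC
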